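import Pool.Agent.Lib.MP_646cd9_ag.Final

/-!
# Strict inclusions in the non-lexicographic cone filtration of ternary decics

The inclusion `C_i ⊆ C_{i+1}` (`0 ≤ i ≤ 17`) is strict exactly for `8 ≤ i ≤ 17`; so exactly `10`
of the `18` inclusions are strict.
-/

namespace Pool.Agent.Results.MP_646cd9_ag.StrictInclusions

open Pool.Agent.Lib.MP_646cd9_ag

theorem result :
    (∀ i ≤ 17, cone i ⊆ cone (i + 1)) ∧
    (∀ i ≤ 17, (cone i ⊂ cone (i + 1) ↔ 8 ≤ i)) ∧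
    {i : ℕ | i ≤ 17 ∧ cone i ⊂ cone (i + 1)}.ncard = 10 := by
  refine ⟨fun i _ => cone_mono (Nat.le_succ i), fun i hi => strict_iff hi, ?_⟩
  have : {i : ℕ | i ≤ 17 ∧ cone i ⊂ cone (i + 1)} = (Finset.Icc 8 17 : Finset ℕ) := by
    ext i
    simp only [Set.mem_ofPred_eq, Finset.coe_Icc, Set.mem_Icc]
    constructor
    · rintro ⟨h1, h2⟩
      exact ⟨(strict_iff h1).mp h2, h1⟩
    · rintro ⟨h1, h2⟩
      exact ⟨h2, (strict_iff h2).mpr h1⟩
  rw [this, Set.ncard_coe_finset]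
  rfl

end Pool.Agent.Results.MP_646cd9_ag.StrictInclusions
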